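import Pool.Agent.Lib.MP_3614fc_co.Fano

set_option autoImplicit false

namespace Pool.Agent.Results.MP_3614fc_co.FanoSubhexagon

open Pool.Agent.Lib.MP_3614fc_co

universe u v

/-- A generalized hexagon with exactly three points on every line that contains `H(2,1)` as a
subgeometry has at most nine lines on every point. In particular it is not semi-finite. -/
theorem result (P : Type u) (L : Type v) (I : P → L → Prop) (hS : IsGenHexagon I)
    (h3 : ∀ l, {p | I p l}.encard = 3) (hH : ContainsH1 (ZMod 2) I) (p : P) :
    {l | I p l}.encard ≤ 9 :=
  main hS h3 hH p

end Pool.Agent.Results.MP_3614fc_co.FanoSubhexagon
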